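import Pool.Agent.Helper445_GMF.Sq5

/-!
There is a Gepner type stability condition with central charge `Z_G` for `W` if and only if there
is one for `W + z ^ 2`.
-/

set_option autoImplicit false

open MvPolynomial Pool.Agent.Helper445_GMF

namespace Pool.Agent.Results.MP_ffecf3_ag.AddSquare

theorem result {n : ℕ} (a : Fin n → ℕ) (ha : ∀ i, 0 < a i) (b d : ℕ) (hd : 0 < d)
    (hb : 2 * b = d) (W : MvPolynomial (Fin n) ℂ) (hW : IsWeightedHomogeneous a W d)
    (hs : ∀ x : Fin n → ℂ, (∀ i, eval x (pderiv i W) = 0) ↔ x = 0) :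
    ∃ hV : IsWeightedHomogeneous (Fin.snoc (α := fun _ => ℕ) a b : Fin (n + 1) → ℕ)
      (rename Fin.castSucc W + X (Fin.last n) ^ 2) d, HasGepner hW ↔ HasGepner hV :=
  ⟨sq_wh hb hW, hasGepner_sq ha hd hb hW (sq_wh hb hW) hs⟩

end Pool.Agent.Results.MP_ffecf3_ag.AddSquare
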