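import Pool.Agent.Helper445_GMF.Bf13

/-!
Existence of a stability condition of Gepner type with central charge `Z_G` for every binary
form of degree between five and nine with an isolated singularity: Q1 has a positive answer for
`n = 2`, `a = (1, 1)`, `5 ≤ d ≤ 9`, where `ε = 2 - d` runs over `-3, ..., -7`. The stability
condition is built from a bounded t-structure: the tilt of the heart of an explicit simple-minded
collection at the torsion pair given by `Z_G`.
-/

set_option autoImplicit false

open MvPolynomial Pool.Agent.Helper445_GMF

namespace Pool.Agent.Results.MP_ffecf3_ag.BinaryForms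

theorem result (d : ℕ) (h5 : 5 ≤ d) (h9 : d ≤ 9) (W : MvPolynomial (Fin 2) ℂ)
    (hW : IsWeightedHomogeneous (fun _ : Fin 2 => 1) W d)
    (hs : ∀ x : Fin 2 → ℂ, (∀ i, eval x (pderiv i W) = 0) ↔ x = 0) : HasGepner hW :=
  Bf.form_gepner h5 h9 hW hs

end Pool.Agent.Results.MP_ffecf3_ag.BinaryForms
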