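import Pool.Agent.Helper445_GMF.Cu14

/-!
Existence of a stability condition of Gepner type with central charge `Z_G` for every polynomial
`W(x, y)` which is homogeneous of degree `3 w` with respect to the weights `(w, 1)`, `w ≥ 2`, and
has an isolated singularity: Q1 has a positive answer for `n = 2`, `a = (w, 1)`, `d = 3 w`, where
`ε = 1 - 2 w` is arbitrarily negative.
-/

set_option autoImplicit false

open MvPolynomial Pool.Agent.Helper445_GMF

namespace Pool.Agent.Results.MP_ffecf3_ag.CubicCurves

theorem result (w : ℕ) (hw : 2 ≤ w) (W : MvPolynomial (Fin 2) ℂ)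
    (hW : IsWeightedHomogeneous (![w, 1] : Fin 2 → ℕ) W (3 * w))
    (hs : ∀ x : Fin 2 → ℂ, (∀ i, eval x (pderiv i W) = 0) ↔ x = 0) : HasGepner hW :=
  Cu.cubic_gepner hw hW hs

end Pool.Agent.Results.MP_ffecf3_ag.CubicCurves
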