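import Pool.Agent.Helper445_GMF.TS4

/-!
There is a Gepner type stability condition with central charge `Z_G` if and only if there is a
bounded t-structure whose aisle is closed under the twist by one and such that `Z_G` maps the
nonzero objects of the first slice to the sector `0 < arg z ≤ 2 π / d`.
-/

set_option autoImplicit false

open MvPolynomial Pool.Agent.Helper445_GMF

namespace Pool.Agent.Results.MP_ffecf3_ag.TStructureCriterion

theorem result {n : ℕ} (a : Fin n → ℕ) (ha : ∀ i, 0 < a i) (d : ℕ) (hd : 3 ≤ d)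
    (W : MvPolynomial (Fin n) ℂ) (hW : IsWeightedHomogeneous a W d)
    (hs : ∀ x : Fin n → ℂ, (∀ i, eval x (pderiv i W) = 0) ↔ x = 0) :
    HasGepner hW ↔ ∃ T : TStr (lg a d W hW),
      (∀ X, T.U X → T.U (X.ts (tau d) 1 (one_mul 1))) ∧
      ∀ X, T.U X → T.V (X.ts (-tau d) 1 (one_mul 1)) → ¬ Null X →
        0 < (ZG X).arg ∧ (ZG X).arg ≤ 2 * Real.pi / d :=
  ⟨crit_mpr hd, fun ⟨T, hm, hp⟩ => crit_mp ha hd hs (TS.ofT hd T hm hp)⟩

end Pool.Agent.Results.MP_ffecf3_ag.TStructureCriterion
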